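import Pool.Agent.helper70.GB.SpecK

/-!
# Project gb, module KW: Karoubi linearization for a row of length three
-/

set_option autoImplicit false

open Matrix Polynomial

namespace GB

universe u

theorem KW_V_map {A B : Type*} [CommRing A] [CommRing B] (f : A →+* B) (w w' : Fin 3 → A) :
    (V w w').map f = V (fun i => f (w i)) (fun i => f (w' i)) := by
  ext i j
  fin_cases i <;> fin_cases j <;> simp [V]

theorem KW_Hyp_map {A B : Type*} [CommRing A] [CommRing B] (f : A →+* B) (κ : Type*) [Fintype κ]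
    [DecidableEq κ] : (Hyp κ A).map f = Hyp κ B := by
  unfold Hyp
  rw [Matrix.fromBlocks_map]
  congr 1
  · ext i j; simp
  · ext i j; simp [Matrix.one_apply, apply_ite f]
  · ext i j; simp [Matrix.one_apply, apply_ite f]
  · ext i j; simp

theorem KW_dsum_map {A B : Type*} [CommRing A] [CommRing B] (f : A →+* B) {ι κ : Type*}
    [Fintype ι] [DecidableEq ι] [Fintype κ] [DecidableEq κ] (M : Matrix ι ι A)
    (N : Matrix κ κ A) : (dsum M N).map f = dsum (M.map f) (N.map f) := by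
  unfold dsum
  rw [Matrix.fromBlocks_map]
  congr 1
  · ext i j; simp
  · ext i j; simp

theorem KW_e0_map {A B : Type*} [CommRing A] [CommRing B] (f : A →+* B) :
    (fun i => f (e0 A i)) = e0 B := by
  ext i
  fin_cases i <;> simp [e0]

theorem KW_isUnit_det_Hyp (κ : Type*) [Fintype κ] [DecidableEq κ] (A : Type*) [CommRing A] :
    IsUnit (Hyp κ A).det := by
  have h : Hyp κ A = -(Matrix.J κ A) := by
    unfold Hyp Matrix.J
    rw [Matrix.fromBlocks_neg]
    simp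
  rw [h, Matrix.det_neg]
  exact (isUnit_one.neg.pow _).mul (Matrix.isUnit_det_J κ A)

/-- change of the dual row at `X = 0` -/
theorem KW_dual {B : Type*} [CommRing B] (w : Fin 3 → B[X]) (hw : Um w)
    (h0 : ∀ i, (w i).eval 0 = e0 B i) :
    ∃ w' : Fin 3 → B[X], w ⬝ᵥ w' = 1 ∧ ∀ i, (w' i).eval 0 = e0 B i := by
  obtain ⟨u, hu⟩ := hw
  have hu3 : w 0 * u 0 + w 1 * u 1 + w 2 * u 2 = 1 := by
    rw [← hu, dotProduct, Fin.sum_univ_three]
  have e0' : (w 0).eval 0 = 1 := by rw [h0 0]; simp [e0]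
  have e1' : (w 1).eval 0 = 0 := by rw [h0 1]; simp [e0]
  have e2' : (w 2).eval 0 = 0 := by rw [h0 2]; simp [e0]
  refine ⟨![u 0 + C ((u 1).eval 0) * w 1 + C ((u 2).eval 0) * w 2,
    u 1 - C ((u 1).eval 0) * w 0, u 2 - C ((u 2).eval 0) * w 0], ?_, ?_⟩
  · rw [dotProduct, Fin.sum_univ_three]
    simp only [Matrix.cons_val_zero, Matrix.cons_val_one, Matrix.cons_val]
    linear_combination hu3
  · have hu0 : (u 0).eval 0 = 1 := by
      have := congrArg (Polynomial.eval 0) hu3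
      simpa [e0', e1', e2'] using this
    intro i
    fin_cases i
    · simp [e0, hu0, e1', e2']
    · simp [e0, e0']
    · simp [e0, e0']

/-- Karoubi for a row of length three -/
theorem KW (hKL : KL_stmt.{u}) (hRT : RT_stmt.{u}) (hVE : VE_stmt.{u}) : KW_stmt.{u} := by
  intro B _ k hk w hw h0
  obtain ⟨w', hww, h0'⟩ := KW_dual w hw h0
  obtain ⟨halt, hdet⟩ := (hVE B[X]).2 w w'
  rw [hww, one_pow] at hdet
  obtain ⟨r, ε, n, hε, hn, hnψ, hεψ⟩ := hKL B (Fin 4) (V w w') halt (by rw [hdet]; exact isUnit_one)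
  have hΦ0 : (V w w').map (Polynomial.eval 0) = V (e0 B) (e0 B) := by
    have h1 := KW_V_map (Polynomial.evalRingHom (0 : B)) w w'
    have h2 : (fun i => Polynomial.evalRingHom (0 : B) (w i)) = e0 B := funext h0
    have h3 : (fun i => Polynomial.evalRingHom (0 : B) (w' i)) = e0 B := funext h0'
    rw [h2, h3] at h1
    exact h1
  rw [hΦ0] at hnψ hεψ
  have hψ : (dsum (V (e0 B) (e0 B)) (Hyp (Fin r) B)).map C =
      dsum (V (e0 B[X]) (e0 B[X])) (Hyp (Fin r) B[X]) := by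
    rw [KW_dsum_map, KW_V_map, KW_Hyp_map, KW_e0_map]
  have hψd : IsUnit (dsum (V (e0 B[X]) (e0 B[X])) (Hyp (Fin r) B[X])).det := by
    rw [dsum, Matrix.det_fromBlocks_zero₂₁]
    refine IsUnit.mul ?_ (KW_isUnit_det_Hyp _ _)
    rw [((hVE B[X]).2 (e0 B[X]) (e0 B[X])).2]
    have : e0 B[X] ⬝ᵥ e0 B[X] = 1 := by
      rw [dotProduct, Fin.sum_univ_three]; simp [e0]
    rw [this, one_pow]
    exact isUnit_one
  have hd1 : (1 + (X : B[X]) • n.map C :
      Matrix (Fin 4 ⊕ (Fin r ⊕ Fin r)) (Fin 4 ⊕ (Fin r ⊕ Fin r)) B[X]).det = 1 := by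
    have h1 := congrArg Matrix.det hεψ
    rw [Matrix.det_mul, Matrix.det_mul, Matrix.det_mul, Matrix.det_transpose, det_of_mem_E hε,
      one_mul, mul_one, dsum, Matrix.det_fromBlocks_zero₂₁, hdet, one_mul, hψ] at h1
    have h2 : (dsum (V (e0 B[X]) (e0 B[X])) (Hyp (Fin r) B[X])).det = (Hyp (Fin r) B[X]).det := by
      rw [dsum, Matrix.det_fromBlocks_zero₂₁, ((hVE B[X]).2 (e0 B[X]) (e0 B[X])).2]
      have : e0 B[X] ⬝ᵥ e0 B[X] = 1 := by
        rw [dotProduct, Fin.sum_univ_three]; simp [e0]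
      rw [this, one_pow, one_mul]
    rw [h2] at h1
    have h3 : (Hyp (Fin r) B[X]).det * 1 = (Hyp (Fin r) B[X]).det *
        (1 + (X : B[X]) • n.map C :
      Matrix (Fin 4 ⊕ (Fin r ⊕ Fin r)) (Fin 4 ⊕ (Fin r ⊕ Fin r)) B[X]).det := by
      rw [mul_one]; exact h1
    exact ((KW_isUnit_det_Hyp (Fin r) B[X]).mul_left_cancel h3).symm
  obtain ⟨s, hs1, hs2, hs3⟩ := hRT B _ (dsum (V (e0 B) (e0 B)) (Hyp (Fin r) B)) n k hk hn hnψ hd1
  refine ⟨w', r, ε, s, hww, hε, hs3, ?_, ?_⟩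
  · rw [← hψ]; exact hs2
  · rw [hεψ, ← hψ, hs1]

end GB
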