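import Pool.Agent.helper70.GB.SpecK
import Pool.Agent.helper65.GB.Koszul

/-!
# Project gb, module SU: surjective stability of `K_1` down to size three
-/

set_option autoImplicit false

open Matrix

namespace GB

universe u

theorem SU_step {A : Type u} [CommRing A] {n : ℕ} (hn : 3 ≤ n) (hSR : SR A n)
    (g : Matrix (Fin (n + 1)) (Fin (n + 1)) A) (hg : g.det = 1) :
    ∃ B : Matrix (Fin n) (Fin n) A, B.det = 1 ∧ ∀ 𝒦 : K1Data.{u} A, 𝒦.k B = 𝒦.k g := by
  set e : Fin (n + 1) ≃ Fin n ⊕ Fin 1 := finSumFinEquiv.symm with he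
  set g' : Matrix (Fin n ⊕ Fin 1) (Fin n ⊕ Fin 1) A := Matrix.reindex e e g with hg'
  have hdet : g'.det = 1 := by rw [hg', Matrix.det_reindex_self, hg]
  have hv : Um (g' (Sum.inr 0)) :=
    Comp.um ⟨Sum.inr 0, g', by rw [hdet]; exact isUnit_one, rfl⟩
  obtain ⟨N, hN, hNv⟩ := (EEq_single_of_SR hSR (by simp) (g' (Sum.inr 0)) hv (Sum.inr 0)).symm
  have hrow : (g' * N) (Sum.inr 0) = Pi.single (Sum.inr 0) 1 := by
    rw [Matrix.mul_apply_eq_vecMul, ← hNv]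
  have hblk : g' * N = fromBlocks (g' * N).toBlocks₁₁ (g' * N).toBlocks₁₂ 0 1 := by
    conv_lhs => rw [← Matrix.fromBlocks_toBlocks (g' * N)]
    congr 1
    · ext i j
      have hi : i = 0 := Subsingleton.elim _ _
      subst hi
      show (g' * N) (Sum.inr 0) (Sum.inl j) = 0
      rw [hrow]
      simp
    · ext i j
      have hi : i = 0 := Subsingleton.elim _ _
      have hj : j = 0 := Subsingleton.elim _ _
      subst hi
      subst hj
      show (g' * N) (Sum.inr 0) (Sum.inr 0) = (1 : Matrix (Fin 1) (Fin 1) A) 0 0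
      rw [hrow]
      simp
  have hNd : N.det = 1 := det_of_mem_E hN
  have hB : (g' * N).toBlocks₁₁.det = 1 := by
    have h1 : (g' * N).det = 1 := by rw [Matrix.det_mul, hdet, hNd, one_mul]
    rw [hblk, Matrix.det_fromBlocks_zero₂₁, Matrix.det_one, mul_one] at h1
    exact h1
  refine ⟨(g' * N).toBlocks₁₁, hB, fun 𝒦 => ?_⟩
  have hfac : g' * N = fromBlocks 1 (g' * N).toBlocks₁₂ 0 1 *
      dsum (g' * N).toBlocks₁₁ (1 : Matrix (Fin 1) (Fin 1) A) := by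
    conv_lhs => rw [hblk]
    rw [dsum, Matrix.fromBlocks_multiply]
    simp
  have h1 : 𝒦.k (g' * N) = 𝒦.k g' := by
    rw [𝒦.k_mul g' N (by rw [hdet]; exact isUnit_one) (by rw [hNd]; exact isUnit_one),
      𝒦.k_E N hN, add_zero]
  have h2 : 𝒦.k (g' * N) = 𝒦.k (g' * N).toBlocks₁₁ := by
    conv_lhs => rw [hfac]
    rw [𝒦.k_mul _ _ (by rw [det_of_mem_E (E_blocks_upper _)]; exact isUnit_one)
      (by rw [dsum, Matrix.det_fromBlocks_zero₂₁, hB]; simp),
      𝒦.k_E _ (E_blocks_upper _), zero_add,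
      𝒦.k_dsum_one _ (by rw [hB]; exact isUnit_one)]
  rw [← h2, h1, hg', 𝒦.k_reindex]

theorem SU_fin {A : Type u} [CommRing A] (hSR : ∀ k, 3 ≤ k → SR A k) (n : ℕ) (hn : 3 ≤ n)
    (g : Matrix (Fin n) (Fin n) A) (hg : g.det = 1) :
    ∃ σ : Matrix (Fin 3) (Fin 3) A, σ.det = 1 ∧ ∀ 𝒦 : K1Data.{u} A, 𝒦.k σ = 𝒦.k g := by
  induction n, hn using Nat.le_induction with
  | base => exact ⟨g, hg, fun _ => rfl⟩
  | succ n hn ih =>
    obtain ⟨B, hB, hk⟩ := SU_step hn (hSR n hn) g hg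
    obtain ⟨σ, hσ, hk'⟩ := ih B hB
    exact ⟨σ, hσ, fun 𝒦 => (hk' 𝒦).trans (hk 𝒦)⟩

/-- surjective stability down to size three -/
theorem SU : SU_stmt.{u} := by
  intro A _ hSR ι _ _ g hcard hg
  let e : ι ≃ Fin (Fintype.card ι) := Fintype.equivFin ι
  obtain ⟨σ, hσ, hk⟩ := SU_fin hSR (Fintype.card ι) hcard (Matrix.reindex e e g)
    (by rw [Matrix.det_reindex_self, hg])
  exact ⟨σ, hσ, fun 𝒦 => by rw [hk 𝒦, 𝒦.k_reindex]⟩

end GB
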